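import Mathlib
import Pool.Agent.U462.Sh.ZInst

set_option autoImplicit false

/-!
# Four primes among five consecutive odd numbers and the Hardy–Littlewood law for the other systems
-/

namespace Pool.Agent.Results.MP_fc51f7_nt.NotFromOtherSystems

open Finset Filter
open scoped Topology
open Pool.Agent.U462.Sh.Law

/-- **Quadruples `n, n + 2, n + 6, n + 8` are independent of the other systems of linear forms.**
(1) There is a set of rough numbers `≥ 2` with the uniform Hardy–Littlewood law for all systems.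
(2) There is a set `S` of rough numbers `≥ 2` which contains, for `n ≥ 16`, at most three of the numbers
`n, n + 2, n + 4, n + 6, n + 8`, with the uniform Hardy–Littlewood law for all systems which do not contain
four forms `l, l + 2, l + 6, l + 8`. -/
theorem result :
    (∃ S : Set ℕ, (∀ m ∈ S, 2 ≤ m ∧ Rough m) ∧ Law S (fun _ => True)) ∧
    (∃ S : Set ℕ, (∀ m ∈ S, 2 ≤ m ∧ Rough m) ∧
      (∀ n : ℕ, 16 ≤ n → {i : ℕ | i < 5 ∧ n + 2 * i ∈ S}.ncard ≤ 3) ∧
      Law S (fun L => ¬ ∃ a b : ℤ, (a, b) ∈ L ∧ (a, b + 2) ∈ L ∧ (a, b + 6) ∈ L ∧ (a, b + 8) ∈ L)) := by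
  classical
  refine ⟨Pool.Agent.U462.Sh.all, ?_⟩
  obtain ⟨S, h1, h2, h3⟩ := Pool.Agent.U462.Sh.shift {0, 2, 6, 8} (by simp)
  refine ⟨S, h1, ?_, Pool.Agent.U462.Sh.law_mono ?_ h3⟩
  · intro n hn
    -- no element of S which is at least 16 is divisible by 3
    have hthree : ∀ m ∈ S, 16 ≤ m → ¬ 3 ∣ m := by
      intro m hm hm16 hdvd
      have h4 : 2 ≤ Nat.log 2 (Nat.log 2 m) := by
        have h5 : 4 ≤ Nat.log 2 m := Nat.le_log_of_pow_le (by norm_num) (by norm_num; omega)
        exact Nat.le_log_of_pow_le (by norm_num) (by norm_num; omega)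
      apply (h1 m hm).2 3 Nat.prime_three _ hdvd
      calc 3 ≤ 2 ^ 2 ^ 1 := by norm_num
        _ ≤ _ := Nat.pow_le_pow_right (by norm_num) (Nat.pow_le_pow_right (by norm_num) (by omega))
    have hset : {i : ℕ | i < 5 ∧ n + 2 * i ∈ S} = (((range 5).filter fun i => n + 2 * i ∈ S : Finset ℕ) : Set ℕ) := by
      ext i
      simp
    rw [hset, Set.ncard_coe_finset]
    by_contra hcon
    have h4 : 4 ≤ #((range 5).filter fun i => n + 2 * i ∈ S) := by omega
    -- at most one of the five is missing
    have hmiss : #((range 5).filter fun i => n + 2 * i ∉ S) ≤ 1 := by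
      have h5 := card_filter_add_card_filter_not (s := range 5) (fun i => n + 2 * i ∈ S)
      rw [card_range] at h5
      omega
    rw [card_le_one] at hmiss
    have hex : ∃ i, i < 3 ∧ 3 ∣ n + 2 * i := by
      have : n % 3 = 0 ∨ n % 3 = 1 ∨ n % 3 = 2 := by omega
      rcases this with h | h | h
      · exact ⟨0, by norm_num, by omega⟩
      · exact ⟨1, by norm_num, by omega⟩
      · exact ⟨2, by norm_num, by omega⟩
    obtain ⟨i, hi, hdvd⟩ := hex
    have hiS : n + 2 * i ∉ S := fun h => hthree _ h (by omega) hdvd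
    have hall : ∀ j, j < 5 → j ≠ i → n + 2 * j ∈ S := by
      intro j hj hji
      by_contra hcon2
      exact hji (hmiss j (mem_filter.2 ⟨mem_range.2 hj, hcon2⟩) i (mem_filter.2 ⟨mem_range.2 (by omega), hiS⟩))
    have hi2 : i = 2 := by
      by_contra hne
      have h01 : i = 0 ∨ i = 1 := by omega
      rcases h01 with rfl | rfl
      · exact hthree _ (hall 3 (by norm_num) (by norm_num)) (by omega) (by omega)
      · exact hthree _ (hall 4 (by norm_num) (by norm_num)) (by omega) (by omega)
    subst hi2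
    apply h2 n
    simp only [mem_insert, mem_singleton]
    rintro d (rfl | rfl | rfl | rfl)
    · exact hall 0 (by norm_num) (by norm_num)
    · exact hall 1 (by norm_num) (by norm_num)
    · exact hall 3 (by norm_num) (by norm_num)
    · exact hall 4 (by norm_num) (by norm_num)
  · rintro L hL ⟨a, b, h4⟩
    refine hL ⟨a, b, ?_, ?_, ?_, ?_⟩
    · simpa using h4 0 (by simp)
    · simpa using h4 2 (by simp)
    · simpa using h4 6 (by simp)
    · simpa using h4 8 (by simp)

end Pool.Agent.Results.MP_fc51f7_nt.NotFromOtherSystems
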