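import Pool.Agent.U455.PAS
import Pool.Agent.U766.OP.Sq
import Pool.Agent.U766.OP.Exa
import Pool.Agent.Q278.KT.Fin

/-!
# Prime quadruples `p, p + d, p + e, p + d + e`: bounded sums of their sides are all multiples of a number

The quadruples `p, p + 2, p + 6, p + 8` of the problem are parallelograms with the sides `2` and `6`. For every `δ > 0`
there are `h`, `M ≥ 1`, `C`, `κ > 0` and `K` such that for ALL large `x`, for EVERY interval `(a, a + H] ⊆ [x, 2 x]` of
length `H ≥ x ^ 0.615` and for EVERY set `Q` of primes of this interval which contains at least the proportion `δ` of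
them (for instance all of them): EVERY multiple `t` of `M` with `K (log x)² ≤ t ≤ H` is a sum of at most `h` positive
integers `d` for each of which there are at least `κ d` integers `e ≠ d`, `1 ≤ e ≤ C d`, such that `p`, `p + d`, `p + e`
and `p + d + e` belong to `Q` for at least `κ H / (log x)⁴` primes `p` (the right order of magnitude).

Proof: a positive proportion of the `d ≤ L`, for all `L ≥ K log x`, are differences of `κ H / (log x)²` pairs of elements
of `Q` (`Pool.Agent.U455.PCW.pop`: pairs in short cells, the upper bound sieve, the second moment of the singular series);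
for such a `d` and `L ≥ K (log x)²` the set of the `p ∈ Q` with `p + d ∈ Q` again has many pairs of elements at distance
`e ≤ L`; the upper bound sieve for the four numbers and the second moment of the singular series over all parallelograms
(`Pool.Agent.U455.PAR.momP`) show that a positive proportion of the pairs `(d, e)` is popular (`PAR.popular`). Then a theorem
on bounded sums for sets of positive density at all scales (`Pool.Agent.U455.BTH.main`), which rests on a covering lemma
and Schnirelmann's theorem. The number of primes of the interval is bounded from below by `Pool.Agent.Q278.KT.mainp_043`.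
-/

set_option autoImplicit false

namespace Pool.Agent.Results.MP_fc51f7_nt.ParallelogramsInDenseSubsets

open Filter Finset

open Classical in
theorem result (δ : ℝ) (hδ : 0 < δ) : ∃ h M C : ℕ, 1 ≤ M ∧ ∃ κ K : ℝ, 0 < κ ∧ ∀ᶠ x : ℕ in atTop,
    ∀ a H : ℕ, x ≤ a → a + H ≤ 2 * x → (x : ℝ) ^ (0.615 : ℝ) ≤ H →
    ∀ Q : Finset ℕ, Q ⊆ (Ioc a (a + H)).filter Nat.Prime →
      δ * (((Ioc a (a + H)).filter Nat.Prime).card : ℝ) ≤ Q.card →
    ∀ t : ℕ, M ∣ t → K * Real.log x ^ 2 ≤ t → t ≤ H →
    ∃ l : List ℕ, l.length ≤ h ∧ l.sum = t ∧ ∀ d ∈ l, 1 ≤ d ∧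
      κ * (d : ℝ) ≤ (((Icc 1 (C * d)).filter (fun e => d ≠ e ∧ κ * (H / Real.log x ^ 4) ≤
        ((Q.filter (fun p => p + d ∈ Q ∧ p + e ∈ Q ∧ p + d + e ∈ Q)).card : ℝ))).card : ℝ) := by
  obtain ⟨c, η, hc, hη, hη1, hall⟩ := Pool.Agent.U766.OP.all_long Pool.Agent.Q278.KT.mainp_043
    (by norm_num) (by norm_num) (by norm_num) (by norm_num)
  obtain ⟨h, M, C, hM, κ, K, hκ, hK, X₀, hmain⟩ := Pool.Agent.U455.PAS.main (δ * c / 2) (by positivity)
  refine ⟨h, M, C, hM, κ, K, hκ, ?_⟩
  have tn : Tendsto (fun n : ℕ => (n : ℝ)) atTop atTop := tendsto_natCast_atTop_atTop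
  have tp : Tendsto (fun n : ℕ => (n : ℝ) ^ (0.615 : ℝ)) atTop atTop := (tendsto_rpow_atTop (by norm_num)).comp tn
  filter_upwards [tn.eventually hall, eventually_ge_atTop 8, tp.eventually_ge_atTop ((X₀ : ℝ) + 3),
    (Real.tendsto_log_atTop.comp tn).eventually_ge_atTop 3] with x hx hx8 hxX hlog
    a H ha haH hH Q hQ hQc t hMt htK htH
  have hlog' : 3 ≤ Real.log (x : ℝ) := hlog
  have hx8' : (8 : ℝ) ≤ x := by exact_mod_cast hx8
  have hx0 : (0 : ℝ) < x := by linarith
  have hx1 : (1 : ℝ) ≤ x := by linarith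
  have haR : (x : ℝ) ≤ a := by exact_mod_cast ha
  have haHR : (a : ℝ) + H ≤ 2 * x := by exact_mod_cast haH
  have hHx : (H : ℝ) ≤ x := by linarith
  have hHa : H ≤ a := by
    have h1 : (H : ℝ) ≤ a := by linarith
    exact_mod_cast h1
  have hH3 : (X₀ : ℝ) + 3 ≤ H := hxX.trans hH
  have hX₀H : X₀ ≤ H := by
    have h1 : (X₀ : ℝ) ≤ H := by linarith
    exact_mod_cast h1
  have hX₀0 : (0 : ℝ) ≤ X₀ := Nat.cast_nonneg _
  have hH0 : (0 : ℝ) < H := by linarith
  -- the logarithms
  have hl1 : Real.log H ≤ Real.log x := Real.log_le_log hH0 hHx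
  have hl2 : 0.615 * Real.log x ≤ Real.log H := by
    have h2 := Real.log_le_log (Real.rpow_pos_of_pos hx0 _) hH
    rwa [Real.log_rpow hx0] at h2
  have hl3 : Real.log x ≤ 2 * Real.log H := by linarith
  have hl4 : 0 < Real.log (H : ℝ) := by linarith
  -- the number of primes
  have hprimes : c * H / Real.log x ≤ (((Ioc a (a + H)).filter Nat.Prime).card : ℝ) := by
    have h4 := hx a H haR (by linarith) (by
      refine le_trans ?_ hH
      rw [show (1 : ℝ) - 0.43 + 0.045 - η = 0.615 - η by norm_num]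
      apply Real.rpow_le_rpow_of_exponent_le hx1
      linarith)
    rw [Pool.Agent.U766.OP.pic_nat] at h4
    exact h4
  have hQsub : Q ⊆ Ioc a (a + H) := fun p hp => (mem_filter.1 (hQ hp)).1
  have hQp : ∀ p ∈ Q, p.Prime := fun p hp => (mem_filter.1 (hQ hp)).2
  have hQc' : δ * c / 2 * (H / Real.log H) ≤ Q.card := by
    refine le_trans ?_ hQc
    have h5 : (H : ℝ) / Real.log H ≤ 2 * (H / Real.log x) := by
      rw [← mul_div_assoc, div_le_div_iff₀ hl4 (by linarith)]
      nlinarith
    calc δ * c / 2 * (H / Real.log H) ≤ δ * c / 2 * (2 * (H / Real.log x)) := by gcongr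
      _ = δ * (c * H / Real.log x) := by ring
      _ ≤ _ := mul_le_mul_of_nonneg_left hprimes hδ.le
  obtain ⟨l, hl1', hl2', hl3'⟩ := hmain a H hX₀H hHa Q hQsub hQp hQc' t hMt (by
    refine le_trans ?_ htK
    gcongr) htH
  refine ⟨l, hl1', hl2', fun d hd => ⟨(hl3' d hd).1, ?_⟩⟩
  refine (hl3' d hd).2.trans (Nat.cast_le.2 (card_le_card fun e he => ?_))
  rw [mem_filter] at he ⊢
  refine ⟨he.1, he.2.1, le_trans ?_ he.2.2⟩
  have h5 : (H : ℝ) / Real.log x ^ 4 ≤ H / Real.log H ^ 4 := by gcongr
  exact mul_le_mul_of_nonneg_left h5 hκ.le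

end Pool.Agent.Results.MP_fc51f7_nt.ParallelogramsInDenseSubsets
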